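import Pool.Agent.Helper15.BB.St

/-!
# Project BB, module I: insertion and free letters
-/

set_option autoImplicit false

namespace Pool.Agent.Helper28.BB

open Pool.Agent.Helper22.FL Pool.Agent.Helper22.CS Pool.Agent.Helper15.BB

theorem redF_insert {T : Type} {P : T → T → Prop} {F : T → Prop} {w : List T} (h : RedF P F w) :
    ∀ u v s : List T, w = u ++ v → RedF P F s → RedF P F (u ++ s ++ v) := by
  induction h with
  | nil =>
    intro u v s h hs
    have := List.append_eq_nil_iff.1 h.symm
    rw [this.1, this.2]
    simpa using hs
  | @one c hc =>
    intro u v s h hs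
    rcases u with _ | ⟨x, u⟩
    · rw [List.nil_append] at h
      rw [← h]
      exact hs.cat (.one hc)
    · rw [List.cons_append] at h
      obtain ⟨rfl, h1⟩ := List.cons.inj h
      have := List.append_eq_nil_iff.1 h1.symm
      rw [this.1, this.2]
      simpa using (RedF.one (P := P) hc).cat hs
  | @cat x y hx hy ih1 ih2 =>
    intro u v s h hs
    rcases List.append_eq_append_iff.1 h with ⟨a, rfl, rfl⟩ | ⟨a, rfl, rfl⟩
    · have := hx.cat (ih2 a v s rfl hs)
      simpa [List.append_assoc] using this
    · have := (ih1 u a s rfl hs).cat hy
      simpa [List.append_assoc] using this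
  | @pair a b x hab hx ih =>
    intro u v s h hs
    rcases u with _ | ⟨y, u⟩
    · rw [List.nil_append] at h
      rw [← h]
      exact hs.cat (.pair hab hx)
    · rw [List.cons_append] at h
      obtain ⟨rfl, h1⟩ := List.cons.inj h
      rcases List.append_eq_append_iff.1 h1 with ⟨d, rfl, h2⟩ | ⟨d, rfl, rfl⟩
      · rcases d with _ | ⟨e, d⟩
        · rw [List.nil_append] at h2
          rw [← h2]
          have := RedF.pair hab (hx.cat hs)
          simpa [List.append_assoc] using this
        · rw [List.cons_append] at h2
          obtain ⟨rfl, h3⟩ := List.cons.inj h2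
          have := List.append_eq_nil_iff.1 h3.symm
          rw [this.1, this.2]
          have := (RedF.pair hab hx).cat hs
          simpa [List.append_assoc] using this
      · have := RedF.pair hab (ih u d s rfl hs)
        simpa [List.append_assoc] using this

theorem sti : StI := by
  intro T P F _
  have h1 : ∀ u v s : List T, RedF P F (u ++ v) → RedF P F s → RedF P F (u ++ s ++ v) :=
    fun u v s h hs => redF_insert h u v s rfl hs
  refine ⟨h1, ?_⟩
  have h2 : ∀ w u : List T, RedF P F (u ++ w.filter fun c => decide (¬ F c)) → RedF P F (u ++ w) := by
    intro w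
    induction w with
    | nil => intro u h; simpa using h
    | cons c w ih =>
      intro u h
      by_cases hc : F c
      · have h3 : (c :: w).filter (fun c => decide (¬ F c)) = w.filter fun c => decide (¬ F c) :=
          List.filter_cons_of_neg (by simp [hc])
        rw [h3] at h
        have h4 := h1 u w [c] (ih u h) (.one hc)
        simpa [List.append_assoc] using h4
      · have h3 : (c :: w).filter (fun c => decide (¬ F c)) = c :: w.filter fun c => decide (¬ F c) :=
          List.filter_cons_of_pos (by simp [hc])
        rw [h3] at h
        have h4 := ih (u ++ [c]) (by simpa [List.append_assoc] using h)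
        simpa [List.append_assoc] using h4
  intro w h
  exact h2 w [] h

end Pool.Agent.Helper28.BB
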